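import Mathlib
import Pool.Agent.MP68293e.NegZero
import Pool.Agent.MP68293e.Pos

/-!
# Image partition regularity of the matrices `M(a)`: a complete characterization
-/

namespace Pool.Agent.Results.MP_68293e_co.Characterization

open Pool.Agent.MP68293e

/-- The entry of `A x` in the row whose coefficients are the finitely supported integer
vector `row`, where `x` is a sequence of positive integers. -/
def entry (row : ℕ →₀ ℤ) (x : ℕ → ℕ+) : ℤ := row.sum fun n z => z * (x n : ℤ)

/-- Let `A` be an `ω × ω` matrix with integer entries and finitely many nonzero entries in every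
row; `A i` is its `i`-th row. `A` is image partition regular over `ℕ = {1, 2, 3, …}` if for every
finite colouring `c` of the positive integers there is a sequence `x` of positive integers such
that all entries of `A x` are positive integers of one and the same colour. -/
def IPR (A : ℕ → ℕ →₀ ℤ) : Prop :=
  ∀ (r : ℕ) (c : ℕ+ → Fin r), ∃ (x : ℕ → ℕ+) (j : Fin r),
    ∀ i, ∃ y : ℕ+, entry (A i) x = (y : ℤ) ∧ c y = j

/-- The set of rows of the matrix `M(a)`: all rows with a single entry `1` and all other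
entries `0`, and all rows whose nonzero entries are `a 0, …, a (k - 1)`, each appearing once and
in this left-to-right order. -/
def rowsM {k : ℕ} (a : Fin k → ℤ) : Set (ℕ →₀ ℤ) :=
  {row | (∃ n, row = Finsupp.single n 1) ∨
    ∃ n : Fin k → ℕ, StrictMono n ∧ row = ∑ i, Finsupp.single (n i) (a i)}

theorem entry_single (n : ℕ) (z : ℤ) (x : ℕ → ℕ+) :
    entry (Finsupp.single n z) x = z * (x n : ℤ) := by
  unfold entry
  rw [Finsupp.sum_single_index (by simp)]

theorem entry_sum {k : ℕ} (a : Fin k → ℤ) (n : Fin k → ℕ) (x : ℕ → ℕ+) :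
    entry (∑ i, Finsupp.single (n i) (a i)) x = ∑ i, a i * (x (n i) : ℤ) := by
  unfold entry
  rw [← Finsupp.sum_finsetSum_index (fun _ => by simp) (fun _ _ _ => by ring)]
  apply Finset.sum_congr rfl
  intro i _
  rw [Finsupp.sum_single_index (by simp)]

/-- Image partition regularity in terms of the sequences. -/
theorem IPR_iff {k : ℕ} (a : Fin k → ℤ) (A : ℕ → ℕ →₀ ℤ) (hA : Set.range A = rowsM a) :
    IPR A ↔ ∀ (r : ℕ) (c : ℕ+ → Fin r), ∃ (x : ℕ → ℕ+) (j : Fin r), (∀ n, c (x n) = j) ∧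
      ∀ n : Fin k → ℕ, StrictMono n →
        ∃ y : ℕ+, ∑ i, a i * (x (n i) : ℤ) = (y : ℤ) ∧ c y = j := by
  constructor
  · intro h r c
    obtain ⟨x, j, hx⟩ := h r c
    refine ⟨x, j, ?_, ?_⟩
    · intro n
      have h1 : Finsupp.single n 1 ∈ rowsM a := Or.inl ⟨n, rfl⟩
      rw [← hA] at h1
      obtain ⟨i, hi⟩ := h1
      obtain ⟨y, hy1, hy2⟩ := hx i
      rw [hi, entry_single, one_mul] at hy1
      have : x n = y := by
        apply PNat.coe_injective
        exact_mod_cast hy1
      rw [this]; exact hy2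
    · intro n hn
      have h1 : (∑ i, Finsupp.single (n i) (a i)) ∈ rowsM a := Or.inr ⟨n, hn, rfl⟩
      rw [← hA] at h1
      obtain ⟨i, hi⟩ := h1
      obtain ⟨y, hy1, hy2⟩ := hx i
      rw [hi, entry_sum] at hy1
      exact ⟨y, hy1, hy2⟩
  · intro h r c
    obtain ⟨x, j, hx1, hx2⟩ := h r c
    refine ⟨x, j, ?_⟩
    intro i
    have h1 : A i ∈ rowsM a := by rw [← hA]; exact ⟨i, rfl⟩
    rcases h1 with ⟨n, hn⟩ | ⟨n, hn, hn2⟩
    · refine ⟨x n, ?_, hx1 n⟩
      rw [hn, entry_single, one_mul]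
    · rw [hn2, entry_sum]
      exact hx2 n hn

theorem not_IPR_of_bad {k : ℕ} (a : Fin k → ℤ) (A : ℕ → ℕ →₀ ℤ) (hA : Set.range A = rowsM a)
    (h : ∃ (C : Type) (_ : Finite C) (c : ℤ → C), Bad a c) : ¬ IPR A := by
  rw [IPR_iff a A hA]
  intro hI
  obtain ⟨C, hC, c, hc⟩ := h
  obtain ⟨r, ⟨e⟩⟩ := Finite.exists_equiv_fin C
  obtain ⟨x, j, hx1, hx2⟩ := hI r (fun y => e (c (y : ℤ)))
  refine hc (fun n => (x n : ℤ)) (fun n => by exact_mod_cast (x n).pos) ?_ ⟨e.symm j, ?_, ?_⟩
  · intro n hn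
    obtain ⟨y, hy1, -⟩ := hx2 n hn
    rw [hy1]
    exact_mod_cast y.pos
  · intro n
    rw [← hx1 n]; simp
  · intro n hn
    obtain ⟨y, hy1, hy2⟩ := hx2 n hn
    rw [hy1, ← hy2]; simp

/-- **Characterization.** Let `a = ⟨a 0, …, a (k - 1)⟩` be any finite sequence of nonzero
integers, and let `A` be any `ω × ω` matrix whose rows are exactly the rows of `M(a)`. Then `A`
is image partition regular over `ℕ` if and only if the sum of the `a i` is `1`, or the sum is `0`
and the last term is `1`, or `k > 0` and all terms are `1`. -/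
theorem result (k : ℕ) (a : Fin k → ℤ) (ha : ∀ i, a i ≠ 0) (A : ℕ → ℕ →₀ ℤ)
    (hA : Set.range A = rowsM a) :
    IPR A ↔ (∑ i, a i = 1 ∨ (∑ i, a i = 0 ∧ ∃ i : Fin k, (i : ℕ) + 1 = k ∧ a i = 1) ∨
      (0 < k ∧ ∀ i, a i = 1)) := by
  constructor
  · intro h
    by_contra hcon
    push Not at hcon
    obtain ⟨h1, h2, h3⟩ := hcon
    rcases Nat.eq_zero_or_pos k with hk | hk
    · subst hk
      rw [IPR_iff a A hA] at h
      obtain ⟨x, j, -, hx⟩ := h 1 (fun _ => 0)
      obtain ⟨y, hy, -⟩ := hx (fun i => i.elim0) (fun i => i.elim0)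
      have : (0 : ℤ) < (y : ℤ) := by exact_mod_cast y.pos
      simp at hy
      omega
    · obtain ⟨m, rfl⟩ : ∃ m, k = m + 1 := ⟨k - 1, by omega⟩
      by_cases hs : ∑ i, a i = 0
      · refine not_IPR_of_bad a A hA (neg_zero m a ha hs ?_) h
        exact h2 hs (Fin.last m) (by simp)
      · refine not_IPR_of_bad a A hA (neg_main m a ha hs h1 ?_) h
        intro h4
        obtain ⟨i, hi⟩ := h3 hk
        exact hi (h4 i)
  · intro h
    rw [IPR_iff a A hA]
    intro r c
    rcases h with h | ⟨hs, i, hi, hai⟩ | ⟨hk, h⟩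
    · refine ⟨fun _ => 1, c 1, fun _ => rfl, ?_⟩
      intro n _
      refine ⟨1, ?_, rfl⟩
      simpa using h
    · obtain ⟨m, rfl⟩ : ∃ m, k = m + 1 := ⟨k - 1, by omega⟩
      have : i = Fin.last m := by
        apply Fin.ext
        simp only [Fin.val_last]
        omega
      subst this
      exact pos_zero m a hs hai r c
    · obtain ⟨x, j, hx1, hx2⟩ := pos_ones k hk r c
      refine ⟨x, j, hx1, ?_⟩
      intro n hn
      obtain ⟨y, hy1, hy2⟩ := hx2 n hn
      refine ⟨y, ?_, hy2⟩
      rw [← hy1]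
      apply Finset.sum_congr rfl
      intro i _
      rw [h i, one_mul]

end Pool.Agent.Results.MP_68293e_co.Characterization
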